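import Mathlib
import Pool.Agent.Helper78.Makeev.Final

/-!
# An open set of counterexamples in dimension 4

Beside the frozen statement S08658: an explicit odd polynomial `f` on `ℝ⁴` and `δ > 0` such that every function within
`δ` of `f` on the unit sphere is a counterexample, for every regular simplex with unit edges and every isometry.
-/

set_option autoImplicit false
set_option linter.unusedSimpArgs false

open Filter Topology ComplexConjugate

namespace Pool.Agent.Results.MP_4d4f59_co.OpenSetOfCounterexamples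

abbrev E4 := EuclideanSpace ℝ (Fin 4)

/-- The explicit odd polynomial. -/
noncomputable def f (ε : ℝ) (u : E4) : ℝ :=
  (u 0 ^ 2 - u 1 ^ 2) * u 2 + 2 * u 0 * u 1 * u 3 +
    ε * ((u 0 ^ 2 + u 1 ^ 2) * (2 * u 0 * u 1 * u 2 - (u 0 ^ 2 - u 1 ^ 2) * u 3))

open Pool.Agent.Helper78.Makeev

private lemma f_eq (ε : ℝ) (u : E4) : f ε u = ff ε u := by
  unfold f ff zA zB
  simp [Complex.normSq_apply, pow_two]
  ring

/-- Centred regular simplices with unit edges. -/
private def W : Set (Fin 5 → E4) := {w | ∑ i, w i = 0 ∧ ∀ i j, i ≠ j → dist (w i) (w j) = 1}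

private lemma W_gram {w : Fin 5 → E4} (hw : w ∈ W) (i j : Fin 5) :
    inner ℝ (w i) (w j) = if i = j then (2 / 5 : ℝ) else -1 / 10 := by
  obtain ⟨h0, h1⟩ := hw
  have hd : ∀ i j, i ≠ j → ‖w i‖ ^ 2 + ‖w j‖ ^ 2 - 2 * inner ℝ (w i) (w j) = 1 := by
    intro i j hij
    have h2 := h1 i j hij
    rw [dist_eq_norm] at h2
    have h3 := norm_sub_sq_real (w i) (w j)
    rw [h2] at h3
    linarith
  have hs : ∀ i, ∑ j, inner ℝ (w i) (w j) = 0 := by
    intro i
    rw [← inner_sum, h0, inner_zero_right]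
  have hn : ∀ i, inner ℝ (w i) (w i) = ‖w i‖ ^ 2 := fun i => real_inner_self_eq_norm_sq _
  have hc : ∀ i j, inner ℝ (w i) (w j) = inner ℝ (w j) (w i) := fun i j => real_inner_comm _ _
  have s0 := hs 0
  have s1 := hs 1
  have s2 := hs 2
  have s3 := hs 3
  have s4 := hs 4
  simp only [Fin.sum_univ_five, hn] at s0 s1 s2 s3 s4
  have d01 := hd 0 1 (by decide)
  have d02 := hd 0 2 (by decide)
  have d03 := hd 0 3 (by decide)
  have d04 := hd 0 4 (by decide)
  have d12 := hd 1 2 (by decide)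
  have d13 := hd 1 3 (by decide)
  have d14 := hd 1 4 (by decide)
  have d23 := hd 2 3 (by decide)
  have d24 := hd 2 4 (by decide)
  have d34 := hd 3 4 (by decide)
  have c10 := hc 1 0
  have c20 := hc 2 0
  have c30 := hc 3 0
  have c40 := hc 4 0
  have c21 := hc 2 1
  have c31 := hc 3 1
  have c41 := hc 4 1
  have c32 := hc 3 2
  have c42 := hc 4 2
  have c43 := hc 4 3
  have ha : ∀ i, ‖w i‖ ^ 2 = 2 / 5 := by
    intro i
    fin_cases i <;> simp only [Fin.zero_eta, Fin.mk_one, Fin.reduceFinMk, Fin.isValue] <;> linarith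
  by_cases hij : i = j
  · subst hij
    rw [if_pos rfl, hn, ha]
  · rw [if_neg hij]
    have := hd i j hij
    rw [ha, ha] at this
    linarith

private lemma W_gram' {w : Fin 5 → E4} (hw : w ∈ W) (i j : Fin 5) :
    ∑ k, w i k * w j k = if i = j then (2 / 5 : ℝ) else -1 / 10 := by
  rw [← W_gram hw i j, PiLp.inner_apply]
  refine Finset.sum_congr rfl (fun k _ => ?_)
  simp [mul_comm]

private lemma W_frame {w : Fin 5 → E4} (hw : w ∈ W) (k l : Fin 4) :
    ∑ i, w i k * w i l = if k = l then (1 / 2 : ℝ) else 0 := by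
  have hg := W_gram' hw
  have h1 : ∑ k, ∑ l, (∑ i, w i k * w i l) ^ 2 = ∑ i, ∑ j, (∑ k, w i k * w j k) ^ 2 := by
    simp only [sq, Finset.sum_mul_sum]
    calc ∑ k, ∑ l, ∑ i, ∑ j, w i k * w i l * (w j k * w j l)
        = ∑ k, ∑ i, ∑ l, ∑ j, w i k * w i l * (w j k * w j l) :=
          Finset.sum_congr rfl (fun k _ => Finset.sum_comm)
      _ = ∑ i, ∑ k, ∑ l, ∑ j, w i k * w i l * (w j k * w j l) := Finset.sum_comm
      _ = ∑ i, ∑ k, ∑ j, ∑ l, w i k * w i l * (w j k * w j l) :=
          Finset.sum_congr rfl (fun i _ => Finset.sum_congr rfl (fun k _ => Finset.sum_comm))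
      _ = ∑ i, ∑ j, ∑ k, ∑ l, w i k * w i l * (w j k * w j l) :=
          Finset.sum_congr rfl (fun i _ => Finset.sum_comm)
      _ = _ := by
          refine Finset.sum_congr rfl (fun i _ => Finset.sum_congr rfl (fun j _ =>
            Finset.sum_congr rfl (fun k _ => Finset.sum_congr rfl (fun l _ => ?_))))
          ring
  have h2 : ∑ k, ∑ i, w i k * w i k = 2 := by
    rw [Finset.sum_comm]
    simp only [hg, if_true]
    norm_num
  have h3 : ∑ k, ∑ l, (∑ i, w i k * w i l) ^ 2 = 1 := by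
    rw [h1]
    simp only [hg]
    simp only [Fin.sum_univ_five]
    norm_num [Fin.ext_iff]
  have h4 : ∑ k : Fin 4, ∑ l : Fin 4, ((∑ i, w i k * w i l) - if k = l then (1 / 2 : ℝ) else 0) ^ 2 = 0 := by
    have e1 : ∀ k l : Fin 4, ((∑ i, w i k * w i l) - if k = l then (1 / 2 : ℝ) else 0) ^ 2 =
        (∑ i, w i k * w i l) ^ 2 - (if k = l then ((∑ i, w i k * w i k) - 1 / 4) else 0) := by
      intro k l
      by_cases hkl : k = l
      · subst hkl
        rw [if_pos rfl, if_pos rfl]
        ring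
      · rw [if_neg hkl, if_neg hkl]
        ring
    simp only [e1, Finset.sum_sub_distrib]
    simp only [Finset.sum_ite_eq, Finset.mem_univ, if_true]
    rw [Finset.sum_sub_distrib, h3, h2]
    norm_num
  have h5 := (Finset.sum_eq_zero_iff_of_nonneg (fun k _ => Finset.sum_nonneg (fun l _ => sq_nonneg _))).mp h4 k
    (Finset.mem_univ _)
  have h6 := (Finset.sum_eq_zero_iff_of_nonneg (fun l _ => sq_nonneg _)).mp h5 l (Finset.mem_univ _)
  have h7 := pow_eq_zero_iff (two_ne_zero) |>.mp h6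
  linarith

private lemma W_coord {w : Fin 5 → E4} (hw : w ∈ W) (k : Fin 4) : ∑ i, w i k = 0 := by
  have := congrArg (fun u : E4 => u k) hw.1
  simpa using this

private lemma simplex_of {w : Fin 5 → E4} (hw : w ∈ W) :
    Simplex (fun i => zA (w i)) (cj (fun i => zA (w i))) (fun i => zB (w i)) (cj (fun i => zB (w i))) := by
  have hs := W_coord hw
  have hf := W_frame hw
  have hg := W_gram' hw
  have hneg : ∀ k, ∑ i, - (w i) k = 0 := by
    intro k; rw [Finset.sum_neg_distrib, hs k, neg_zero]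
  simp only [zA, zB, cj_gen]
  constructor
  · exact sum_gen _ _ (hs 0) (hs 1)
  · exact sum_gen _ _ (hs 0) (hneg 1)
  · exact sum_gen _ _ (hs 2) (hs 3)
  · exact sum_gen _ _ (hs 2) (hneg 3)
  · rw [s2_gen]; simp [hf]
  · rw [s2_gen]; simp [hf]
  · rw [s2_gen]; simp [hf]
  · rw [s2_gen]; simp [hf]
  · rw [s2_gen]; simp [hf]
  · rw [s2_gen]; simp [hf]
  · rw [s2_gen]; simp [hf]
  · rw [s2_gen]; simp [hf]
  · rw [s2_gen]; simp [hf]; norm_num
  · rw [s2_gen]; simp [hf]; norm_num
  · intro i j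
    have h := hg i j
    rw [Fin.sum_univ_four] at h
    have hI := Complex.I_sq
    have key : (if i = j then (1:ℂ) else 0)
        = 1/5 + 2 * (((if i = j then (2/5 : ℝ) else -1/10 : ℝ)) : ℂ) := by
      split_ifs <;> norm_num
    rw [key, ← h]
    push_cast
    linear_combination (2 * ((w i) 1 : ℂ) * ((w j) 1 : ℂ)
      + 2 * ((w i) 3 : ℂ) * ((w j) 3 : ℂ)) * hI

private lemma no_exact : ∃ ε : ℝ, ∀ w ∈ W, ∀ x : E4,
    ¬ ∀ i j : Fin 5, inner ℝ x (w j - w i) = ff ε (w j - w i) := by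
  obtain ⟨ε, -, hε⟩ := exists_eps
  refine ⟨ε, fun w hw x hx => ?_⟩
  apply hε (fun i => zA (w i)) (fun i => zB (w i))
  have hS := simplex_of hw
  have hy : ∀ i j, ff ε (w j - w i) = inner ℝ x (w j) - inner ℝ x (w i) := by
    intro i j
    rw [← hx i j, inner_sub_right]
  exact
    { simplex := hS
      e1 := LF_zero ε _ _ hy _ _ hS.sa hS.sb
      e2 := LF_zero ε _ _ hy _ _ hS.sa hS.sb'
      e3 := LF_zero ε _ _ hy _ _ hS.sa hS.sa'
      e4 := LF_zero ε _ _ hy _ _ hS.sb hS.sb' }

private lemma W_compact : IsCompact W := by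
  apply Metric.isCompact_of_isClosed_isBounded
  · have : W = {w | ∑ i, w i = 0} ∩ ⋂ i, ⋂ j, ⋂ (_ : i ≠ j), {w | dist (w i) (w j) = 1} := by
      ext w
      simp [W]
    rw [this]
    refine IsClosed.inter (isClosed_eq (by fun_prop) continuous_const) ?_
    refine isClosed_iInter (fun i => isClosed_iInter (fun j => isClosed_iInter (fun _ => ?_)))
    exact isClosed_eq (by fun_prop) continuous_const
  · rw [Metric.isBounded_iff_subset_closedBall 0]
    refine ⟨1, fun w hw => ?_⟩
    rw [mem_closedBall_zero_iff, pi_norm_le_iff_of_nonneg (by norm_num)]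
    intro i
    have h := W_gram hw i i
    rw [if_pos rfl, real_inner_self_eq_norm_sq] at h
    nlinarith [norm_nonneg (w i)]

private lemma W_nonempty : vtx ∈ W := ⟨vtx_sum, vtx_dist⟩

private noncomputable def Psi (ε : ℝ) (p : (Fin 5 → E4) × E4) : ℝ :=
  ∑ i, ∑ j, |inner ℝ p.2 (p.1 j - p.1 i) - ff ε (p.1 j - p.1 i)|

private lemma Psi_cont (ε : ℝ) : Continuous (Psi ε) := by
  unfold Psi
  have hf := ff_cont ε
  refine continuous_finsetSum _ (fun i _ => continuous_finsetSum _ (fun j _ => ?_))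
  have h1 : Continuous (fun p : (Fin 5 → E4) × E4 => p.1 j - p.1 i) := by fun_prop
  exact ((continuous_snd.inner h1).sub (hf.comp h1)).abs

private lemma Psi_lower (ε B : ℝ) (hB : ∀ w ∈ W, ∑ i, ∑ j, |ff ε (w j - w i)| ≤ B) (w : Fin 5 → E4) (hw : w ∈ W) (x : E4) :
    5 / 2 * ‖x‖ - B ≤ Psi ε (w, x) := by
  have h1 : ∀ i, 5 * |inner ℝ x (w i)| ≤ ∑ j, |inner ℝ x (w j - w i)| := by
    intro i
    have h2 : ∑ j, inner ℝ x (w j - w i) = -(5 * inner ℝ x (w i)) := by
      simp only [inner_sub_right, Finset.sum_sub_distrib]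
      rw [← inner_sum, hw.1, inner_zero_right]
      simp
    have h3 := Finset.abs_sum_le_sum_abs (fun j => inner ℝ x (w j - w i)) Finset.univ
    rw [h2, abs_neg, abs_mul, abs_of_pos (by norm_num : (0:ℝ) < 5)] at h3
    exact h3
  have h4 : ∑ i, (inner ℝ x (w i)) ^ 2 = 1 / 2 * ‖x‖ ^ 2 := by
    have e1 : ∀ i, inner ℝ x (w i) = ∑ k, x k * w i k := by
      intro i
      rw [PiLp.inner_apply]
      refine Finset.sum_congr rfl (fun k _ => ?_)
      simp [mul_comm]
    simp only [e1]
    have e2 : ∑ i, (∑ k, x k * w i k) ^ 2 = ∑ k, ∑ l, x k * x l * ∑ i, w i k * w i l := by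
      simp only [sq, Finset.sum_mul_sum]
      simp only [Finset.mul_sum]
      calc ∑ i, ∑ k, ∑ l, x k * w i k * (x l * w i l)
          = ∑ k, ∑ i, ∑ l, x k * w i k * (x l * w i l) := Finset.sum_comm
        _ = ∑ k, ∑ l, ∑ i, x k * w i k * (x l * w i l) :=
            Finset.sum_congr rfl (fun k _ => Finset.sum_comm)
        _ = _ := by
            refine Finset.sum_congr rfl (fun k _ => Finset.sum_congr rfl (fun l _ =>
              Finset.sum_congr rfl (fun i _ => ?_)))
            ring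
    rw [e2]
    simp only [W_frame hw, mul_ite, mul_zero, Finset.sum_ite_eq, Finset.mem_univ, if_true]
    rw [EuclideanSpace.norm_sq_eq, Finset.mul_sum]
    refine Finset.sum_congr rfl (fun k _ => ?_)
    rw [Real.norm_eq_abs, sq_abs]
    ring
  have h5 : ‖x‖ / 2 ≤ ∑ i, |inner ℝ x (w i)| := by
    have h6 : ∑ i, |inner ℝ x (w i)| ^ 2 ≤ (∑ i, |inner ℝ x (w i)|) ^ 2 :=
      Finset.sum_sq_le_sq_sum_of_nonneg (fun i _ => abs_nonneg _)
    simp only [sq_abs] at h6
    rw [h4] at h6
    have h7 : 0 ≤ ∑ i, |inner ℝ x (w i)| := Finset.sum_nonneg (fun i _ => abs_nonneg _)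
    nlinarith [norm_nonneg x]
  have h8 : ∑ i, ∑ j, |inner ℝ x (w j - w i)| - ∑ i, ∑ j, |ff ε (w j - w i)| ≤ Psi ε (w, x) := by
    unfold Psi
    rw [← Finset.sum_sub_distrib]
    refine Finset.sum_le_sum (fun i _ => ?_)
    rw [← Finset.sum_sub_distrib]
    refine Finset.sum_le_sum (fun j _ => ?_)
    have := abs_sub_abs_le_abs_sub (inner ℝ x (w j - w i)) (ff ε (w j - w i))
    exact this
  have h9 : 5 * ∑ i, |inner ℝ x (w i)| ≤ ∑ i, ∑ j, |inner ℝ x (w j - w i)| := by
    rw [Finset.mul_sum]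
    exact Finset.sum_le_sum (fun i _ => h1 i)
  have h10 := hB w hw
  linarith

private lemma uniform : ∃ ε c : ℝ, 0 < c ∧ ∀ w ∈ W, ∀ x : E4, c ≤ Psi ε (w, x) := by
  obtain ⟨ε, hε⟩ := no_exact
  have hcf : Continuous (fun w : Fin 5 → E4 => ∑ i, ∑ j, |ff ε (w j - w i)|) := by
    have hf := ff_cont ε
    refine continuous_finsetSum _ (fun i _ => continuous_finsetSum _ (fun j _ => ?_))
    have h1 : Continuous (fun p : (Fin 5 → E4) => p j - p i) := by fun_prop
    exact (hf.comp h1).abs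
  obtain ⟨B, hB⟩ := W_compact.exists_bound_of_continuousOn hcf.continuousOn
  have hB' : ∀ w ∈ W, ∑ i, ∑ j, |ff ε (w j - w i)| ≤ B := fun w hw => (le_abs_self _).trans (hB w hw)
  have hB0 : 0 ≤ B := (norm_nonneg _).trans (hB _ W_nonempty)
  have hK : IsCompact (W ×ˢ Metric.closedBall (0 : E4) (B + 1)) := W_compact.prod (isCompact_closedBall _ _)
  have hne : (W ×ˢ Metric.closedBall (0 : E4) (B + 1)).Nonempty :=
    ⟨(vtx, 0), W_nonempty, by rw [mem_closedBall_zero_iff, norm_zero]; linarith⟩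
  obtain ⟨p, hp, hmin⟩ := hK.exists_isMinOn hne (Psi_cont ε).continuousOn
  have hpos : 0 < Psi ε p := by
    have h0 : 0 ≤ Psi ε p := Finset.sum_nonneg (fun i _ => Finset.sum_nonneg (fun j _ => abs_nonneg _))
    refine lt_of_le_of_ne h0 (fun h => ?_)
    refine hε p.1 hp.1 p.2 (fun i j => ?_)
    have h5 := (Finset.sum_eq_zero_iff_of_nonneg (fun i _ => Finset.sum_nonneg (fun j _ => abs_nonneg _))).mp h.symm i
      (Finset.mem_univ _)
    have h6 := (Finset.sum_eq_zero_iff_of_nonneg (fun j _ => abs_nonneg _)).mp h5 j (Finset.mem_univ _)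
    have h7 := abs_eq_zero.mp h6
    linarith
  refine ⟨ε, min 1 (Psi ε p), lt_min one_pos hpos, fun w hw x => ?_⟩
  by_cases hx : ‖x‖ ≤ B + 1
  · refine (min_le_right _ _).trans ?_
    exact hmin (show (w, x) ∈ W ×ˢ Metric.closedBall (0 : E4) (B + 1) from ⟨hw, by rwa [mem_closedBall_zero_iff]⟩)
  · push Not at hx
    refine (min_le_left _ _).trans ?_
    have := Psi_lower ε B hB' w hw x
    linarith

/-- There are `ε` and `δ > 0` such that the odd polynomial `f ε` and every function `g` within `δ` of it on the unit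
sphere of `ℝ⁴` satisfy: for every regular simplex with unit edges and every linear isometry `A`, the ten hyperplanes
`⟨x, A (v j - v i)⟩ = g (A (v j - v i))` have no common point. -/
theorem result : ∃ ε δ : ℝ, 0 < δ ∧ Continuous (f ε) ∧ (∀ u, f ε (-u) = - f ε u) ∧
    ∀ g : E4 → ℝ, (∀ u ∈ Metric.sphere (0 : E4) 1, |g u - f ε u| ≤ δ) →
      ∀ v : Fin 5 → E4, (∀ i j, i ≠ j → dist (v i) (v j) = 1) →
        ∀ A : E4 ≃ₗᵢ[ℝ] E4, ¬ ∃ x : E4, ∀ i j : Fin 5, i < j →
          inner ℝ x (A (v j - v i)) = g (A (v j - v i)) := by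
  obtain ⟨ε, c, hc, h⟩ := uniform
  have hfe : f ε = ff ε := funext (f_eq ε)
  refine ⟨ε, c / 50, by positivity, by rw [hfe]; exact ff_cont ε, fun u => by rw [hfe]; exact ff_neg ε u, ?_⟩
  rintro g hg v hv A ⟨x, hx⟩
  set m : E4 := (1 / 5 : ℝ) • ∑ i, v i with hm
  set w : Fin 5 → E4 := fun i => A (v i - m) with hwdef
  have hdiff : ∀ i j, w j - w i = A (v j - v i) := by
    intro i j
    simp only [hwdef]
    rw [← map_sub]
    congr 1
    abel
  have hunit : ∀ i j, i ≠ j → ‖A (v j - v i)‖ = 1 := by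
    intro i j hij
    rw [A.norm_map, ← dist_eq_norm]
    exact hv j i (Ne.symm hij)
  have hw : w ∈ W := by
    constructor
    · simp only [hwdef]
      rw [← map_sum, Finset.sum_sub_distrib]
      have : ∑ i : Fin 5, m = ∑ i, v i := by
        rw [Finset.sum_const, Finset.card_univ, Fintype.card_fin, hm, ← Nat.cast_smul_eq_nsmul ℝ, smul_smul]
        norm_num
      rw [this, sub_self, map_zero]
    · intro i j hij
      rw [dist_eq_norm, hdiff]
      exact hunit j i (Ne.symm hij)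
  have hterm : ∀ i j, |inner ℝ x (w j - w i) - ff ε (w j - w i)| ≤ c / 50 := by
    have key : ∀ i j, i < j → |inner ℝ x (w j - w i) - ff ε (w j - w i)| ≤ c / 50 := by
      intro i j hij
      rw [hdiff, hx i j hij, ← hfe]
      exact hg _ (by rw [mem_sphere_zero_iff_norm]; exact hunit i j hij.ne)
    intro i j
    rcases lt_trichotomy i j with hij | hij | hij
    · exact key i j hij
    · subst hij
      rw [sub_self, inner_zero_right]
      simp [ff, zA, zB]
      positivity
    · have h1 := key j i hij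
      have h2 : w j - w i = -(w i - w j) := by abel
      rw [h2, ff_neg, inner_neg_right]
      rw [show -inner ℝ x (w i - w j) - -ff ε (w i - w j) = -(inner ℝ x (w i - w j) - ff ε (w i - w j)) by ring, abs_neg]
      exact h1
  have hsum : Psi ε (w, x) ≤ ∑ i : Fin 5, ∑ j : Fin 5, c / 50 :=
    Finset.sum_le_sum (fun i _ => Finset.sum_le_sum (fun j _ => hterm i j))
  have h2 := h w hw x
  simp only [Finset.sum_const, Finset.card_univ, Fintype.card_fin, nsmul_eq_mul] at hsum
  push_cast at hsum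
  linarith

end Pool.Agent.Results.MP_4d4f59_co.OpenSetOfCounterexamples
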